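import Pool.Agent.Q88.MR.Stm

/-! Project MR (helper88): common analytic lemmas for the jobs UP and GR. -/

open MeasureTheory Filter Set
open scoped Topology ENNReal

namespace Pool.Agent.Q63.MR

open Pool.Agent.Q88.MR

/-- the integral of the bound of the heat kernel -/
theorem int_bd (k D : ℕ) (hk : 1 ≤ k) (hD : 2 * k < D) : ∃ C : ℝ, 0 < C ∧ ∀ R : ℝ, 0 ≤ R →
    ∫⁻ t in Ioi (0 : ℝ), ENNReal.ofReal (t ^ (k - 1) * ((1 / Real.sqrt (1 + t)) ^ D *
      ((1 + t) / (1 + t + R ^ 2)) ^ D)) ≤ ENNReal.ofReal (C / (1 + R) ^ (D - 2 * k)) := by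
  have hkD : (k : ℝ) < D / 2 := by
    have : (2 * k : ℝ) < D := by exact_mod_cast hD
    linarith
  set e : ℝ := (k : ℝ) - D / 2 with he
  have he0 : e < 0 := by rw [he]; linarith
  have hk1 : (1 : ℝ) ≤ k := by exact_mod_cast hk
  refine ⟨(1 + 1 / (-e)) * 2 ^ ((D - 2 * k : ℕ) / 2 : ℝ), by
    have : 0 < 1 / (-e) := by apply one_div_pos.2; linarith
    positivity, fun R hR => ?_⟩
  set L : ℝ := 1 + R ^ 2 with hL
  have hL1 : 1 ≤ L := by rw [hL]; nlinarith
  have hL0 : 0 < L := by linarith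
  -- pointwise bound
  have hpt : ∀ t : ℝ, 0 < t → t ^ (k - 1) * ((1 / Real.sqrt (1 + t)) ^ D *
      ((1 + t) / (1 + t + R ^ 2)) ^ D) ≤
      (1 + t) ^ (e - 1) * ((1 + t) / (1 + t + R ^ 2)) ^ D := by
    intro t ht
    have h1 : t ^ (k - 1) ≤ (1 + t) ^ ((k : ℝ) - 1) := by
      have h2 : t ^ (k - 1) ≤ (1 + t) ^ (k - 1) := pow_le_pow_left₀ ht.le (by linarith) _
      have h3 : (1 + t) ^ ((k : ℝ) - 1) = (1 + t) ^ (k - 1) := by
        rw [← Real.rpow_natCast, Nat.cast_sub hk, Nat.cast_one]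
      rw [h3]; exact h2
    have h2 : (1 / Real.sqrt (1 + t)) ^ D = (1 + t) ^ (-(D : ℝ) / 2) := by
      rw [Real.sqrt_eq_rpow, one_div, ← Real.rpow_neg (by linarith), ← Real.rpow_natCast,
        ← Real.rpow_mul (by linarith)]
      congr 1; ring
    have h3 : (1 + t) ^ (e - 1) = (1 + t) ^ ((k : ℝ) - 1) * (1 + t) ^ (-(D : ℝ) / 2) := by
      rw [← Real.rpow_add (by linarith)]; congr 1; rw [he]; ring
    rw [h2, h3, ← mul_assoc]
    have h4 : 0 ≤ ((1 + t) / (1 + t + R ^ 2)) ^ D := by positivity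
    have h5 : 0 ≤ (1 + t) ^ (-(D : ℝ) / 2) := by positivity
    gcongr
  have hA : ∀ t : ℝ, 0 < t → 1 + t ≤ L → t ^ (k - 1) * ((1 / Real.sqrt (1 + t)) ^ D *
      ((1 + t) / (1 + t + R ^ 2)) ^ D) ≤ L ^ (e - 1) := by
    intro t ht htL
    refine (hpt t ht).trans ?_
    have h1 : ((1 + t) / (1 + t + R ^ 2)) ^ D ≤ ((1 + t) / L) ^ D := by
      apply pow_le_pow_left₀ (by positivity)
      apply div_le_div_of_nonneg_left (by linarith) hL0
      rw [hL]; linarith
    have h2 : (1 + t) ^ (e - 1) * ((1 + t) / L) ^ D = (1 + t) ^ (e - 1 + D) * L ^ (-(D : ℝ)) := by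
      rw [div_pow, Real.rpow_add (by linarith), Real.rpow_natCast, Real.rpow_neg hL0.le,
        Real.rpow_natCast, div_eq_mul_inv, mul_assoc]
    have h3 : (1 + t) ^ (e - 1 + D) ≤ L ^ (e - 1 + D) := by
      apply Real.rpow_le_rpow (by linarith) htL
      have : (D : ℝ) / 2 ≥ 0 := by positivity
      rw [he]; linarith
    calc (1 + t) ^ (e - 1) * ((1 + t) / (1 + t + R ^ 2)) ^ D ≤
          (1 + t) ^ (e - 1) * ((1 + t) / L) ^ D :=
          mul_le_mul_of_nonneg_left h1 (by positivity)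
      _ = (1 + t) ^ (e - 1 + D) * L ^ (-(D : ℝ)) := h2
      _ ≤ L ^ (e - 1 + D) * L ^ (-(D : ℝ)) := mul_le_mul_of_nonneg_right h3 (by positivity)
      _ = L ^ (e - 1) := by rw [← Real.rpow_add hL0]; congr 1; ring
  have hB : ∀ t : ℝ, 0 < t → t ^ (k - 1) * ((1 / Real.sqrt (1 + t)) ^ D *
      ((1 + t) / (1 + t + R ^ 2)) ^ D) ≤ (1 + t) ^ (e - 1) := by
    intro t ht
    refine (hpt t ht).trans ?_
    have h1 : ((1 + t) / (1 + t + R ^ 2)) ^ D ≤ 1 := by
      apply pow_le_one₀ (by positivity)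
      rw [div_le_one (by positivity)]
      nlinarith
    calc (1 + t) ^ (e - 1) * ((1 + t) / (1 + t + R ^ 2)) ^ D ≤ (1 + t) ^ (e - 1) * 1 :=
          mul_le_mul_of_nonneg_left h1 (by positivity)
      _ = (1 + t) ^ (e - 1) := mul_one _
  -- splitting
  have hsplit : Ioi (0 : ℝ) = Ioc 0 (L - 1) ∪ Ioi (L - 1) :=
    (Ioc_union_Ioi_eq_Ioi (by linarith)).symm
  have h1 : ∫⁻ t in Ioc (0 : ℝ) (L - 1), ENNReal.ofReal (t ^ (k - 1) *
      ((1 / Real.sqrt (1 + t)) ^ D * ((1 + t) / (1 + t + R ^ 2)) ^ D)) ≤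
      ENNReal.ofReal (L ^ e) := by
    calc _ ≤ ∫⁻ t in Ioc (0 : ℝ) (L - 1), ENNReal.ofReal (L ^ (e - 1)) := by
          refine setLIntegral_mono measurable_const fun t ht => ?_
          exact ENNReal.ofReal_le_ofReal (hA t ht.1 (by linarith [ht.2]))
      _ = ENNReal.ofReal (L ^ (e - 1)) * ENNReal.ofReal (L - 1 - 0) := by
          rw [setLIntegral_const, Real.volume_Ioc]
      _ ≤ ENNReal.ofReal (L ^ e) := by
          rw [← ENNReal.ofReal_mul (by positivity)]
          apply ENNReal.ofReal_le_ofReal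
          have : L ^ e = L ^ (e - 1) * L := by
            rw [← Real.rpow_add_one hL0.ne']; congr 1; ring
          rw [this]
          apply mul_le_mul_of_nonneg_left (by linarith) (by positivity)
  have h2 : ∫⁻ t in Ioi (L - 1), ENNReal.ofReal (t ^ (k - 1) *
      ((1 / Real.sqrt (1 + t)) ^ D * ((1 + t) / (1 + t + R ^ 2)) ^ D)) ≤
      ENNReal.ofReal (1 / (-e) * L ^ e) := by
    calc _ ≤ ∫⁻ t in Ioi (L - 1), ENNReal.ofReal ((1 + t) ^ (e - 1)) := by
          refine setLIntegral_mono' measurableSet_Ioi fun t ht => ?_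
          have : L - 1 < t := ht
          exact ENNReal.ofReal_le_ofReal (hB t (by linarith))
      _ = ∫⁻ t in Ioi L, ENNReal.ofReal (t ^ (e - 1)) := by
          have hmp : MeasurePreserving (fun t : ℝ => 1 + t) volume volume :=
            measurePreserving_add_left volume 1
          have h3 := hmp.setLIntegral_comp_preimage_emb (MeasurableEquiv.addLeft (1 : ℝ)).measurableEmbedding
            (fun t => ENNReal.ofReal (t ^ (e - 1))) (Ioi L)
          have h4 : (fun t : ℝ => 1 + t) ⁻¹' (Ioi L) = Ioi (L - 1) := by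
            ext t
            simp only [mem_preimage, mem_Ioi]
            constructor <;> intro h <;> linarith
          rw [← h3, h4]
      _ = ENNReal.ofReal (∫ t in Ioi L, t ^ (e - 1)) := by
          rw [ofReal_integral_eq_lintegral_ofReal]
          · exact integrableOn_Ioi_rpow_of_lt (by linarith) hL0
          · filter_upwards [ae_restrict_mem measurableSet_Ioi] with t ht
            have : 0 < t := lt_trans hL0 ht
            positivity
      _ = ENNReal.ofReal (1 / (-e) * L ^ e) := by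
          rw [integral_Ioi_rpow_of_lt (by linarith) hL0]
          congr 1
          have : e - 1 + 1 = e := by ring
          rw [this]
          field_simp
  rw [hsplit]
  refine (lintegral_union_le _ _ _).trans ((add_le_add h1 h2).trans ?_)
  rw [← ENNReal.ofReal_add (by positivity) (by
    have : 0 < 1 / (-e) := by apply one_div_pos.2; linarith
    positivity)]
  apply ENNReal.ofReal_le_ofReal
  have h3 : L ^ e ≤ 2 ^ ((D - 2 * k : ℕ) / 2 : ℝ) / (1 + R) ^ (D - 2 * k) := by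
    have hDk : ((D - 2 * k : ℕ) : ℝ) = -(2 * e) := by
      rw [Nat.cast_sub hD.le, he]; push_cast; ring
    have h4 : (1 + R) ^ 2 / 2 ≤ L := by rw [hL]; nlinarith [sq_nonneg (1 - R)]
    have h5 : L ^ e ≤ ((1 + R) ^ 2 / 2) ^ e :=
      Real.rpow_le_rpow_of_nonpos (by positivity) h4 he0.le
    refine h5.trans (le_of_eq ?_)
    rw [← Real.rpow_natCast (1 + R) (D - 2 * k), hDk, Real.div_rpow (by positivity) (by norm_num),
      ← Real.rpow_natCast, ← Real.rpow_mul (by linarith), div_eq_mul_inv, div_eq_mul_inv,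
      ← Real.rpow_neg (by norm_num), ← Real.rpow_neg (by linarith), mul_comm]
    congr 1
    · congr 1; ring
    · congr 1; push_cast; ring
  have h6 : 0 < 1 / (-e) := by apply one_div_pos.2; linarith
  calc L ^ e + 1 / (-e) * L ^ e = (1 + 1 / (-e)) * L ^ e := by ring
    _ ≤ (1 + 1 / (-e)) * (2 ^ ((D - 2 * k : ℕ) / 2 : ℝ) / (1 + R) ^ (D - 2 * k)) :=
        mul_le_mul_of_nonneg_left h3 (by positivity)
    _ = _ := by ring

/-- a coordinate of maximal absolute value -/
theorem exists_coord {d : ℕ} (hd : 1 ≤ d) (z : Fin d → ℤ) : ∃ i, |(z i : ℝ)| = ‖z‖ := by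
  haveI : Nonempty (Fin d) := ⟨⟨0, hd⟩⟩
  obtain ⟨i, hi⟩ := Finite.exists_max (fun i => ‖z i‖)
  refine ⟨i, ?_⟩
  have h1 : ‖z i‖ = |(z i : ℝ)| := Int.norm_eq_abs _
  rw [← h1]
  apply le_antisymm (norm_le_pi_norm z i)
  rw [pi_norm_le_iff_of_nonneg (norm_nonneg _)]
  exact hi

/-- the product of the spatial factors -/
theorem prod_g {d : ℕ} (hd : 1 ≤ d) (z : Fin d → ℤ) (t : ℝ) (ht : 0 < t) (M : ℕ) :
    ∏ i, ((1 + t) / (1 + t + (z i : ℝ) ^ 2)) ^ M ≤ ((1 + t) / (1 + t + ‖z‖ ^ 2)) ^ M := by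
  obtain ⟨i, hi⟩ := exists_coord hd z
  rw [← Finset.mul_prod_erase Finset.univ _ (Finset.mem_univ i), ← hi, sq_abs]
  apply mul_le_of_le_one_right (by positivity)
  apply Finset.prod_le_one
  · intro j _; positivity
  · intro j _
    apply pow_le_one₀ (by positivity)
    rw [div_le_one (by positivity)]
    nlinarith [sq_nonneg (z j : ℝ)]

end Pool.Agent.Q63.MR
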