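import Pool.Agent.Q63.MR.Ana

/-! Project MR (helper88): jobs HL, LOW, UP, GR. -/

open MeasureTheory Filter Set
open scoped Topology ENNReal

namespace Pool.Agent.Q63.MR

open Pool.Agent.Q88.MR

theorem hk_nonneg (h2 : S_POI) (t : ℝ) (n : ℤ) (ht : 0 ≤ t) : 0 ≤ hk t n := by
  have h := h2 1 le_rfl t ht (fun _ => n)
  have e : ∏ i : Fin 1, hk t n = hk t n := by simp
  rw [e] at h
  refine h.nonneg fun m => ?_
  positivity

theorem hk_neg (t : ℝ) (n : ℤ) : hk t (-n) = hk t n := by
  unfold hk
  congr 1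
  apply intervalIntegral.integral_congr
  intro θ _
  simp only
  congr 1
  push_cast
  rw [neg_mul, Real.cos_neg]

theorem hk_zero_lower (t : ℝ) (ht : 1 ≤ t) : Real.exp (-1) / (Real.pi * Real.sqrt t) ≤ hk t 0 := by
  have hst : 1 ≤ Real.sqrt t := by rw [Real.one_le_sqrt]; exact ht
  have hs0 : 0 < Real.sqrt t := by linarith
  set a := 1 / Real.sqrt t with ha
  have ha0 : 0 < a := by positivity
  have ha1 : a ≤ 1 := by rw [ha, div_le_one hs0]; exact hst
  have hpi := Real.pi_gt_three
  have hcont : Continuous fun θ : ℝ => Real.cos (((0 : ℤ) : ℝ) * θ) *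
      Real.exp (-(t * (2 - 2 * Real.cos θ))) := by fun_prop
  have h1 : ∫ θ in (-a)..a, Real.cos (((0 : ℤ) : ℝ) * θ) * Real.exp (-(t * (2 - 2 * Real.cos θ)))
      ≤ ∫ θ in (-Real.pi)..Real.pi, Real.cos (((0 : ℤ) : ℝ) * θ) *
        Real.exp (-(t * (2 - 2 * Real.cos θ))) := by
    apply intervalIntegral.integral_mono_interval (by linarith) (by linarith) (by linarith)
    · refine Eventually.of_forall fun θ => ?_
      simp only [Int.cast_zero, zero_mul, Real.cos_zero, one_mul]
      exact (Real.exp_pos _).le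
    · exact hcont.intervalIntegrable _ _
  have h2 : ∫ θ in (-a)..a, Real.exp (-1) ≤ ∫ θ in (-a)..a, Real.cos (((0 : ℤ) : ℝ) * θ) *
      Real.exp (-(t * (2 - 2 * Real.cos θ))) := by
    apply intervalIntegral.integral_mono_on (by linarith) (by simp)
      (hcont.intervalIntegrable _ _)
    intro θ hθ
    simp only [Int.cast_zero, zero_mul, Real.cos_zero, one_mul]
    apply Real.exp_le_exp.2
    have h3 := Real.one_sub_sq_div_two_le_cos (x := θ)
    have h4 : θ ^ 2 ≤ a ^ 2 := by
      apply sq_le_sq'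
      · exact hθ.1
      · exact hθ.2
    have h5 : t * a ^ 2 = 1 := by
      rw [ha, div_pow, one_pow, Real.sq_sqrt (by linarith)]
      field_simp
    have h6 : t * θ ^ 2 ≤ 1 := by
      rw [← h5]; exact mul_le_mul_of_nonneg_left h4 (by linarith)
    nlinarith
  rw [intervalIntegral.integral_const, smul_eq_mul] at h2
  unfold hk
  have h3 := h2.trans h1
  have h4 : Real.exp (-1) / (Real.pi * Real.sqrt t) =
      1 / (2 * Real.pi) * ((a - -a) * Real.exp (-1)) := by
    rw [ha]; field_simp; ring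
  rw [h4]
  exact mul_le_mul_of_nonneg_left h3 (by positivity)

theorem t_HL (h1 : S_HB) (h2 : S_POI) : S_HL := by
  refine ⟨fun t n ht => hk_nonneg h2 t n ht, ?_⟩
  obtain ⟨C, hC, hB⟩ := h1 0
  have hpi := Real.pi_pos
  refine ⟨Real.exp (-1) / (2 * Real.pi * C), Real.exp (-1) / (2 * Real.pi), by positivity,
    by positivity, fun t ht n hn => ?_⟩
  have ht0 : 0 < t := by linarith
  have hstep : ∀ n : ℤ, |hk t (n + 1) - hk t n| ≤ C / t := by
    intro n
    have h3 := (hB t ht0.le n).2
    rw [pow_zero, mul_one] at h3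
    refine h3.trans ?_
    apply div_le_div_of_nonneg_left hC.le ht0 (by linarith)
  have hnat : ∀ m : ℕ, |hk t m - hk t 0| ≤ m * (C / t) := by
    intro m
    induction m with
    | zero => simp
    | succ m ih =>
      have h3 := hstep m
      have h4 := abs_add_le (hk t ((m : ℤ) + 1) - hk t m) (hk t m - hk t 0)
      have e : hk t ((m : ℤ) + 1) - hk t m + (hk t m - hk t 0) = hk t ((m : ℤ) + 1) - hk t 0 := by
        ring
      rw [e] at h4
      push_cast
      linarith
  have hall : |hk t n - hk t 0| ≤ |(n : ℝ)| * (C / t) := by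
    rcases le_total 0 n with h | h
    · obtain ⟨m, rfl⟩ := Int.eq_ofNat_of_zero_le h
      have := hnat m
      simpa using this
    · obtain ⟨m, hm⟩ := Int.eq_ofNat_of_zero_le (by omega : 0 ≤ -n)
      have h3 := hnat m
      rw [← hk_neg t n, hm]
      have e : |(n : ℝ)| = m := by
        have : (n : ℝ) = -(m : ℝ) := by
          have : n = -(m : ℤ) := by omega
          rw [this]; push_cast; ring
        rw [this, abs_neg, abs_of_nonneg (Nat.cast_nonneg m)]
      rw [e]; exact h3
  have h0 := hk_zero_lower t ht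
  have hs0 : 0 < Real.sqrt t := Real.sqrt_pos.2 ht0
  have hss : Real.sqrt t * Real.sqrt t = t := Real.mul_self_sqrt ht0.le
  have h5 : |(n : ℝ)| * (C / t) ≤ Real.exp (-1) / (2 * Real.pi * C) * Real.sqrt t * (C / t) :=
    mul_le_mul_of_nonneg_right hn (by positivity)
  have h6 : Real.exp (-1) / (2 * Real.pi * C) * Real.sqrt t * (C / t) =
      Real.exp (-1) / (2 * Real.pi) / Real.sqrt t := by
    have key : ∀ r : ℝ, 0 < r → Real.exp (-1) / (2 * Real.pi * C) * r * (C / (r * r)) =
        Real.exp (-1) / (2 * Real.pi) / r := fun r hr => by field_simp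
    have := key (Real.sqrt t) hs0
    rwa [hss] at this
  have h7 : Real.exp (-1) / (Real.pi * Real.sqrt t) =
      2 * (Real.exp (-1) / (2 * Real.pi) / Real.sqrt t) := by
    field_simp
  have h8 := (abs_le.1 hall).1
  linarith

theorem t_LOW (h1 : S_GI) (h2 : S_HL) : S_LOW := by
  intro d k hk1 hkd
  have hd : 1 ≤ d := by omega
  obtain ⟨hnn, δ, c, hδ, hc, hlow⟩ := h2
  set δ' := min δ 1 with hδ'
  have hδ'0 : 0 < δ' := lt_min hδ one_pos
  have hδ'1 : δ' ≤ 1 := min_le_right _ _
  have hδδ : δ' ≤ δ := min_le_left _ _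
  have hf : 0 < (2 * (d : ℝ)) ^ k / ((k - 1).factorial : ℝ) := by
    have : (0 : ℝ) < d := by exact_mod_cast hd
    positivity
  refine ⟨(2 * (d : ℝ)) ^ k / ((k - 1).factorial : ℝ) * (c ^ d * (1 / Real.sqrt 2) ^ d *
    (δ' ^ d / δ' ^ (2 * k))), by positivity, fun z => ?_⟩
  rw [h1 d k hd hk1 z]
  set R := 1 + ‖z‖ with hR
  have hR1 : 1 ≤ R := by rw [hR]; linarith [norm_nonneg z]
  have hR0 : 0 < R := by linarith
  set t0 := (R / δ') ^ 2 with ht0
  have hRδ : 1 ≤ R / δ' := by rw [le_div_iff₀ hδ'0]; linarith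
  have ht01 : 1 ≤ t0 := by rw [ht0]; nlinarith
  have hs2 : Real.sqrt (2 * t0) = Real.sqrt 2 * (R / δ') := by
    rw [Real.sqrt_mul (by norm_num), ht0, Real.sqrt_sq (by positivity)]
  have hlb : ∫⁻ t in Icc t0 (2 * t0), ENNReal.ofReal (t0 ^ (k - 1) *
      (c / Real.sqrt (2 * t0)) ^ d) ≤
      ∫⁻ t in Ioi (0 : ℝ), ENNReal.ofReal (t ^ (k - 1) * ∏ i, hk t (z i)) := by
    calc _ ≤ ∫⁻ t in Icc t0 (2 * t0), ENNReal.ofReal (t ^ (k - 1) * ∏ i, hk t (z i)) := by
          refine setLIntegral_mono' measurableSet_Icc fun t ht => ?_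
          apply ENNReal.ofReal_le_ofReal
          have ht1 : 1 ≤ t := ht01.trans ht.1
          have h3 : t0 ^ (k - 1) ≤ t ^ (k - 1) := pow_le_pow_left₀ (by linarith) ht.1 _
          have h4 : (c / Real.sqrt (2 * t0)) ^ d ≤ ∏ i, hk t (z i) := by
            have h5 : ∏ _i : Fin d, (c / Real.sqrt (2 * t0)) ≤ ∏ i, hk t (z i) := by
              apply Finset.prod_le_prod
              · intro i _; positivity
              · intro i _
                have h6 : |(z i : ℝ)| ≤ δ * Real.sqrt t := by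
                  have h7 : |(z i : ℝ)| ≤ ‖z‖ := by
                    rw [← Int.norm_eq_abs]; exact norm_le_pi_norm z i
                  have h8 : R / δ' ≤ Real.sqrt t := by
                    apply Real.le_sqrt_of_sq_le
                    exact ht.1
                  have h9 : R ≤ δ' * Real.sqrt t := by
                    rw [div_le_iff₀ hδ'0] at h8; linarith
                  have h10 : δ' * Real.sqrt t ≤ δ * Real.sqrt t :=
                    mul_le_mul_of_nonneg_right hδδ (Real.sqrt_nonneg t)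
                  linarith
                have h11 := hlow t ht1 (z i) h6
                refine le_trans ?_ h11
                apply div_le_div_of_nonneg_left hc.le (Real.sqrt_pos.2 (by linarith))
                exact Real.sqrt_le_sqrt ht.2
            rwa [Finset.prod_const, Finset.card_univ, Fintype.card_fin] at h5
          apply mul_le_mul h3 h4 (by positivity) (by positivity)
      _ ≤ ∫⁻ t in Ioi (0 : ℝ), ENNReal.ofReal (t ^ (k - 1) * ∏ i, hk t (z i)) := by
          apply lintegral_mono_set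
          intro t ht
          exact lt_of_lt_of_le (by linarith : 0 < t0) ht.1
  refine le_trans ?_ (mul_le_mul' le_rfl hlb)
  rw [setLIntegral_const, Real.volume_Icc, ← ENNReal.ofReal_mul (by positivity),
    ← ENNReal.ofReal_mul (by positivity)]
  apply ENNReal.ofReal_le_ofReal
  apply le_of_eq
  rw [mul_div_assoc]
  congr 1
  rw [hs2]
  have e1 : t0 ^ (k - 1) * (c / (Real.sqrt 2 * (R / δ'))) ^ d * (2 * t0 - t0) =
      (t0 ^ (k - 1) * t0) * (c / (Real.sqrt 2 * (R / δ'))) ^ d := by ring
  rw [e1, ← pow_succ, Nat.sub_add_cancel hk1, ht0, ← pow_mul]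
  have e2 : (c / (Real.sqrt 2 * (R / δ'))) ^ d = c ^ d * (1 / Real.sqrt 2) ^ d * (δ' / R) ^ d := by
    rw [← mul_pow, ← mul_pow]; congr 1; field_simp
  have hdk : d = (d - 2 * k) + 2 * k := by omega
  have e3 : (δ' / R) ^ d = δ' ^ d / (R ^ (d - 2 * k) * R ^ (2 * k)) := by
    rw [div_pow, ← pow_add, ← hdk]
  rw [e2, e3, div_pow R δ' (2 * k)]
  have hs : Real.sqrt 2 ≠ 0 := by positivity
  field_simp

theorem GN_zero (d : ℕ) (z : Fin d → ℤ) : GN d 0 z = if z = 0 then 1 else 0 := by
  unfold GN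
  rw [tsum_eq_single (default : Fin 0 → ℕ)]
  · simp [q]
  · intro b hb
    exact absurd (Subsingleton.elim _ _) hb

/-- the bound for the integrand -/
theorem prod_bd {d : ℕ} (hd : 1 ≤ d) (C : ℝ) (hC : 0 < C) (M : ℕ)
    (hB : ∀ t : ℝ, 0 ≤ t → ∀ n : ℤ,
      |hk t n| ≤ C / Real.sqrt (1 + t) * ((1 + t) / (1 + t + n ^ 2)) ^ M) (z : Fin d → ℤ) (t : ℝ)
    (ht : 0 < t) : |∏ i, hk t (z i)| ≤
      C ^ d * ((1 / Real.sqrt (1 + t)) ^ d * ((1 + t) / (1 + t + ‖z‖ ^ 2)) ^ M) := by
  rw [Finset.abs_prod]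
  have h1 : ∏ i, |hk t (z i)| ≤
      ∏ i, (C * (1 / Real.sqrt (1 + t)) * ((1 + t) / (1 + t + (z i : ℝ) ^ 2)) ^ M) := by
    apply Finset.prod_le_prod
    · intro i _; exact abs_nonneg _
    · intro i _
      refine (hB t ht.le (z i)).trans (le_of_eq ?_)
      ring
  refine h1.trans ?_
  rw [Finset.prod_mul_distrib, Finset.prod_const, Finset.card_univ, Fintype.card_fin, mul_pow,
    mul_assoc]
  apply mul_le_mul_of_nonneg_left _ (by positivity)
  apply mul_le_mul_of_nonneg_left (prod_g hd z t ht M) (by positivity)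

theorem t_UP (h1 : S_GI) (h2 : S_HB) (_h3 : S_HL) : S_UP := by
  intro d k hkd
  have hd : 1 ≤ d := by omega
  rcases Nat.eq_zero_or_pos k with hk0 | hk1
  · subst hk0
    refine ⟨1, one_pos, fun z => ?_⟩
    rw [GN_zero]
    split_ifs with hz
    · rw [hz]; simp
    · exact zero_le'
  · obtain ⟨C, hC, hB⟩ := h2 d
    obtain ⟨C', hC', hI⟩ := int_bd k d hk1 hkd
    have hf : 0 < (2 * (d : ℝ)) ^ k / ((k - 1).factorial : ℝ) := by
      have : (0 : ℝ) < d := by exact_mod_cast hd
      positivity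
    refine ⟨(2 * (d : ℝ)) ^ k / ((k - 1).factorial : ℝ) * (C ^ d * C'), by positivity,
      fun z => ?_⟩
    rw [h1 d k hd hk1 z]
    have h4 : ∫⁻ t in Ioi (0 : ℝ), ENNReal.ofReal (t ^ (k - 1) * ∏ i, hk t (z i)) ≤
        ENNReal.ofReal (C ^ d) * ENNReal.ofReal (C' / (1 + ‖z‖) ^ (d - 2 * k)) := by
      calc _ ≤ ∫⁻ t in Ioi (0 : ℝ), ENNReal.ofReal (C ^ d) * ENNReal.ofReal (t ^ (k - 1) *
            ((1 / Real.sqrt (1 + t)) ^ d * ((1 + t) / (1 + t + ‖z‖ ^ 2)) ^ d)) := by
            refine setLIntegral_mono' measurableSet_Ioi fun t ht => ?_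
            have ht0 : 0 < t := ht
            rw [← ENNReal.ofReal_mul (by positivity)]
            apply ENNReal.ofReal_le_ofReal
            have h5 := (le_abs_self _).trans
              (prod_bd hd C hC d (fun t ht n => (hB t ht n).1) z t ht0)
            have h6 := mul_le_mul_of_nonneg_left h5 (by positivity : 0 ≤ t ^ (k - 1))
            refine h6.trans (le_of_eq ?_)
            ring
        _ = ENNReal.ofReal (C ^ d) * ∫⁻ t in Ioi (0 : ℝ), ENNReal.ofReal (t ^ (k - 1) *
            ((1 / Real.sqrt (1 + t)) ^ d * ((1 + t) / (1 + t + ‖z‖ ^ 2)) ^ d)) := by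
            rw [lintegral_const_mul' _ _ ENNReal.ofReal_ne_top]
        _ ≤ _ := mul_le_mul' le_rfl (hI ‖z‖ (norm_nonneg z))
    refine (mul_le_mul' le_rfl h4).trans (le_of_eq ?_)
    rw [← ENNReal.ofReal_mul (by positivity), ← ENNReal.ofReal_mul (by positivity)]
    congr 1
    ring

theorem hk_meas (n : ℤ) : Continuous fun t : ℝ => hk t n := by
  unfold hk
  apply continuous_const.mul
  apply intervalIntegral.continuous_parametric_intervalIntegral_of_continuous'
  fun_prop

theorem prod_single {d : ℕ} (h : ℤ → ℝ) (z z' : Fin d → ℤ) (i : Fin d) (h1 : z' i = z i + 1)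
    (h2 : ∀ j, j ≠ i → z' j = z j) :
    ∏ j, h (z' j) = h (z i + 1) * ∏ j ∈ Finset.univ.erase i, h (z j) := by
  rw [← Finset.mul_prod_erase Finset.univ _ (Finset.mem_univ i), h1]
  congr 1
  refine Finset.prod_congr rfl fun j hj => ?_
  rw [h2 j (Finset.ne_of_mem_erase hj)]

theorem t_GR (h1 : S_GI) (h2 : S_HB) (h3 : S_HL) (h4 : S_UP) : S_GR := by
  intro d k hk1 hkd
  have hd : 1 ≤ d := by omega
  obtain ⟨C, hC, hB⟩ := h2 (d + 1)
  obtain ⟨C', hC', hI⟩ := int_bd k (d + 1) hk1 (by omega)
  obtain ⟨C0, hC0, hU⟩ := h4 d k hkd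
  set c0 : ℝ := (2 * (d : ℝ)) ^ k / ((k - 1).factorial : ℝ) with hc0
  have hf : 0 < c0 := by
    have : (0 : ℝ) < d := by exact_mod_cast hd
    rw [hc0]; positivity
  set G : (Fin d → ℤ) → ℝ → ℝ := fun z t => t ^ (k - 1) * ∏ i, hk t (z i) with hG
  have hGc : ∀ z, Continuous (G z) := by
    intro z
    exact (continuous_pow _).mul (continuous_finset_prod _ fun i _ => hk_meas (z i))
  have hG0 : ∀ z, ∀ t : ℝ, 0 < t → 0 ≤ G z t := fun z t ht =>
    mul_nonneg (by positivity) (Finset.prod_nonneg fun i _ => h3.1 t (z i) ht.le)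
  have hGN : ∀ z, GN d k z = ENNReal.ofReal c0 * ∫⁻ t in Ioi (0 : ℝ), ENNReal.ofReal (G z t) :=
    fun z => h1 d k hd hk1 z
  have hfin : ∀ z, ∫⁻ t in Ioi (0 : ℝ), ENNReal.ofReal (G z t) ≠ ⊤ := by
    intro z hcon
    have h5 := hU z
    rw [hGN, hcon, ENNReal.mul_top (by simpa using hf)] at h5
    exact ENNReal.ofReal_ne_top (top_le_iff.1 h5)
  have hint : ∀ z, Integrable (G z) (volume.restrict (Ioi 0)) := by
    intro z
    refine ⟨(hGc z).aestronglyMeasurable, ?_⟩
    rw [hasFiniteIntegral_iff_norm]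
    refine lt_of_le_of_lt (le_of_eq ?_) (lt_top_iff_ne_top.2 (hfin z))
    refine setLIntegral_congr_fun measurableSet_Ioi fun t ht => ?_
    rw [Real.norm_of_nonneg (hG0 z t ht)]
  have hreal : ∀ z, (GN d k z).toReal = c0 * ∫ t in Ioi (0 : ℝ), G z t := by
    intro z
    rw [hGN, ENNReal.toReal_mul, ENNReal.toReal_ofReal hf.le, integral_eq_lintegral_of_nonneg_ae]
    · filter_upwards [ae_restrict_mem measurableSet_Ioi] with t ht
      exact hG0 z t ht
    · exact (hGc z).aestronglyMeasurable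
  refine ⟨c0 * (C ^ d * C'), by positivity, fun z i => ?_⟩
  rw [hreal, hreal, ← mul_sub, abs_mul, abs_of_pos hf, ← integral_sub (hint _) (hint _)]
  have h5 : |∫ t in Ioi (0 : ℝ), (G (z + Pi.single i 1) t - G z t)| ≤
      C ^ d * C' / (1 + ‖z‖) ^ (d - 2 * k + 1) := by
    have h6 := norm_integral_le_lintegral_norm (μ := volume.restrict (Ioi (0 : ℝ)))
      (fun t => G (z + Pi.single i 1) t - G z t)
    rw [Real.norm_eq_abs] at h6
    refine h6.trans ?_
    have h7 : ∫⁻ t in Ioi (0 : ℝ), ENNReal.ofReal ‖G (z + Pi.single i 1) t - G z t‖ ≤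
        ENNReal.ofReal (C ^ d) * ENNReal.ofReal (C' / (1 + ‖z‖) ^ (d + 1 - 2 * k)) := by
      calc _ ≤ ∫⁻ t in Ioi (0 : ℝ), ENNReal.ofReal (C ^ d) * ENNReal.ofReal (t ^ (k - 1) *
            ((1 / Real.sqrt (1 + t)) ^ (d + 1) * ((1 + t) / (1 + t + ‖z‖ ^ 2)) ^ (d + 1))) := by
            refine setLIntegral_mono' measurableSet_Ioi fun t ht => ?_
            have ht0 : 0 < t := ht
            rw [← ENNReal.ofReal_mul (by positivity)]
            apply ENNReal.ofReal_le_ofReal
            have hs0 : 0 < Real.sqrt (1 + t) := Real.sqrt_pos.2 (by linarith)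
            -- the difference of the products
            have e1 : G (z + Pi.single i 1) t - G z t = t ^ (k - 1) *
                ((hk t (z i + 1) - hk t (z i)) * ∏ j ∈ Finset.univ.erase i, hk t (z j)) := by
              simp only [hG]
              have e2 := prod_single (fun n => hk t n) z (z + Pi.single i 1) i (by simp)
                (fun j hj => by simp [hj])
              have e3 := Finset.mul_prod_erase Finset.univ (fun j => hk t (z j)) (Finset.mem_univ i)
              rw [e2, ← e3]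
              ring
            rw [e1, Real.norm_eq_abs, abs_mul, abs_of_nonneg (by positivity : 0 ≤ t ^ (k - 1)),
              abs_mul, Finset.abs_prod]
            have h8 : |hk t (z i + 1) - hk t (z i)| ≤ C * (1 / Real.sqrt (1 + t)) ^ 2 *
                ((1 + t) / (1 + t + (z i : ℝ) ^ 2)) ^ (d + 1) := by
              refine (hB t ht0.le (z i)).2.trans (le_of_eq ?_)
              congr 1
              rw [div_pow, one_pow, Real.sq_sqrt (by linarith)]
              ring
            have h9 : ∏ j ∈ Finset.univ.erase i, |hk t (z j)| ≤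
                ∏ j ∈ Finset.univ.erase i, (C * (1 / Real.sqrt (1 + t)) *
                  ((1 + t) / (1 + t + (z j : ℝ) ^ 2)) ^ (d + 1)) := by
              apply Finset.prod_le_prod
              · intro j _; exact abs_nonneg _
              · intro j _
                refine (hB t ht0.le (z j)).1.trans (le_of_eq ?_)
                ring
            have h10 := mul_le_mul h8 h9 (Finset.prod_nonneg fun j _ => abs_nonneg _)
              (by positivity)
            have e3 : C * (1 / Real.sqrt (1 + t)) ^ 2 *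
                ((1 + t) / (1 + t + (z i : ℝ) ^ 2)) ^ (d + 1) *
                ∏ j ∈ Finset.univ.erase i, (C * (1 / Real.sqrt (1 + t)) *
                  ((1 + t) / (1 + t + (z j : ℝ) ^ 2)) ^ (d + 1)) =
                C ^ d * (1 / Real.sqrt (1 + t)) ^ (d + 1) *
                ∏ j, ((1 + t) / (1 + t + (z j : ℝ) ^ 2)) ^ (d + 1) := by
              rw [Finset.prod_mul_distrib, Finset.prod_const, Finset.card_erase_of_mem
                (Finset.mem_univ i), Finset.card_univ, Fintype.card_fin,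
                ← Finset.mul_prod_erase Finset.univ
                  (fun j => ((1 + t) / (1 + t + (z j : ℝ) ^ 2)) ^ (d + 1)) (Finset.mem_univ i)]
              obtain ⟨m, rfl⟩ : ∃ m, d = m + 1 := ⟨d - 1, by omega⟩
              rw [Nat.add_sub_cancel, mul_pow]
              ring
            rw [e3] at h10
            have h11 := mul_le_mul_of_nonneg_left (prod_g hd z t ht0 (d + 1))
              (by positivity : 0 ≤ C ^ d * (1 / Real.sqrt (1 + t)) ^ (d + 1))
            have h12 := mul_le_mul_of_nonneg_left (h10.trans h11)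
              (by positivity : 0 ≤ t ^ (k - 1))
            refine h12.trans (le_of_eq ?_)
            ring
        _ = ENNReal.ofReal (C ^ d) * ∫⁻ t in Ioi (0 : ℝ), ENNReal.ofReal (t ^ (k - 1) *
            ((1 / Real.sqrt (1 + t)) ^ (d + 1) * ((1 + t) / (1 + t + ‖z‖ ^ 2)) ^ (d + 1))) := by
            rw [lintegral_const_mul' _ _ ENNReal.ofReal_ne_top]
        _ ≤ _ := mul_le_mul' le_rfl (hI ‖z‖ (norm_nonneg z))
    have h8 : d + 1 - 2 * k = d - 2 * k + 1 := by omega
    rw [h8, ← ENNReal.ofReal_mul (by positivity)] at h7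
    have h9 := ENNReal.toReal_mono ENNReal.ofReal_ne_top h7
    refine h9.trans (le_of_eq ?_)
    rw [ENNReal.toReal_ofReal (by positivity)]
    ring
  refine (mul_le_mul_of_nonneg_left h5 hf.le).trans (le_of_eq ?_)
  ring

end Pool.Agent.Q63.MR
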